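import Mathlib

namespace Pool.Agent.H.MP_63ef02_al

variable {F : Type} [Field F]

def IsId (F : Type) [Field F] (n : ℕ) (f : FreeAlgebra F ℕ) : Prop :=
  ∀ φ : ℕ → Matrix (Fin n) (Fin n) F, FreeAlgebra.lift F φ f = 0

theorem lift_map {A B : Type} [Ring A] [Algebra F A] [Ring B] [Algebra F B] (g : A →ₐ[F] B)
    (φ : ℕ → A) (f : FreeAlgebra F ℕ) :
    g (FreeAlgebra.lift F φ f) = FreeAlgebra.lift F (fun n => g (φ n)) f := by
  have : g.comp (FreeAlgebra.lift F φ) = FreeAlgebra.lift F (fun n => g (φ n)) := by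
    ext n; simp
  exact DFunLike.congr_fun this f

theorem lift_endo {A : Type} [Ring A] [Algebra F A] (φ : ℕ → A)
    (ψ : FreeAlgebra F ℕ →ₐ[F] FreeAlgebra F ℕ) (f : FreeAlgebra F ℕ) :
    FreeAlgebra.lift F φ (ψ f) =
      FreeAlgebra.lift F (fun n => FreeAlgebra.lift F φ (ψ (FreeAlgebra.ι F n))) f := by
  have : (FreeAlgebra.lift F φ).comp ψ =
      FreeAlgebra.lift F (fun n => FreeAlgebra.lift F φ (ψ (FreeAlgebra.ι F n))) := by
    ext n; simp
  exact DFunLike.congr_fun this f

theorem id_comm [Infinite F] {n : ℕ} {f : FreeAlgebra F ℕ} (hf : IsId F n f) {C : Type}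
    [CommRing C] [Algebra F C] (φ : ℕ → Matrix (Fin n) (Fin n) C) :
    FreeAlgebra.lift F φ f = 0 := by
  let G : ℕ → Matrix (Fin n) (Fin n) (MvPolynomial (ℕ × Fin n × Fin n) F) :=
    fun k => Matrix.of fun i j => MvPolynomial.X (k, i, j)
  have h0 : FreeAlgebra.lift F G f = 0 := by
    refine Matrix.ext fun i j => MvPolynomial.funext fun x => ?_
    have h := lift_map (AlgHom.mapMatrix (m := Fin n) (MvPolynomial.aeval (R := F) x)) G f
    rw [hf] at h
    have := congrFun (congrFun h i) j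
    simpa [MvPolynomial.aeval_eq_eval] using this
  have h := lift_map (AlgHom.mapMatrix (m := Fin n)
    (MvPolynomial.aeval (R := F) fun s : ℕ × Fin n × Fin n => φ s.1 s.2.1 s.2.2)) G f
  rw [h0, map_zero] at h
  rw [h]
  congr 2
  funext k
  ext i j
  simp [G]

theorem id_blk [Infinite F] {f : FreeAlgebra F ℕ} (hf : IsId F 21 f) {C : Type}
    [CommRing C] [Algebra F C] (φ : ℕ → Matrix (Fin 7) (Fin 7) (Matrix (Fin 3) (Fin 3) C)) :
    FreeAlgebra.lift F φ f = 0 := by
  let E : Matrix (Fin 7) (Fin 7) (Matrix (Fin 3) (Fin 3) C) ≃ₐ[F] Matrix (Fin 21) (Fin 21) C :=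
    (Matrix.compAlgEquiv (Fin 7) (Fin 3) C F).trans
      (Matrix.reindexAlgEquiv F C (finProdFinEquiv (m := 7) (n := 3)))
  apply E.injective
  rw [map_zero]
  exact (lift_map E.toAlgHom φ f).trans (id_comm hf _)

theorem id_endo {n : ℕ} {f : FreeAlgebra F ℕ} (hf : IsId F n f)
    (ψ : FreeAlgebra F ℕ →ₐ[F] FreeAlgebra F ℕ) : IsId F n (ψ f) := fun φ => by
  rw [lift_endo]; exact hf _

theorem span_words (a : FreeAlgebra F ℕ) :
    a ∈ Submodule.span F (Set.range fun l : List ℕ => (l.map (FreeAlgebra.ι F)).prod) := by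
  induction a using FreeAlgebra.induction with
  | grade0 r =>
    rw [Algebra.algebraMap_eq_smul_one]
    exact Submodule.smul_mem _ _ (Submodule.subset_span ⟨[], rfl⟩)
  | grade1 x => exact Submodule.subset_span ⟨[x], by simp⟩
  | add a b ha hb => exact Submodule.add_mem _ ha hb
  | mul a b ha hb =>
    induction ha using Submodule.span_induction with
    | mem x hx =>
      obtain ⟨l, rfl⟩ := hx
      induction hb using Submodule.span_induction with
      | mem y hy =>
        obtain ⟨l', rfl⟩ := hy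
        exact Submodule.subset_span ⟨l ++ l', by simp⟩
      | zero => simp
      | add y z _ _ h1 h2 => rw [mul_add]; exact Submodule.add_mem _ h1 h2
      | smul c y _ h1 => rw [mul_smul_comm]; exact Submodule.smul_mem _ _ h1
    | zero => simp
    | add y z _ _ h1 h2 => rw [add_mul]; exact Submodule.add_mem _ h1 h2
    | smul c y _ h1 => rw [smul_mul_assoc]; exact Submodule.smul_mem _ _ h1

end Pool.Agent.H.MP_63ef02_al
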