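import Pool.Agent.H.MP_63ef02_al.A

namespace Pool.Agent.H.MP_63ef02_al

variable {F : Type} [Field F]

abbrev Gr (F : Type) [Field F] := ExteriorAlgebra F (ℕ →₀ F)

noncomputable def ee (F : Type) [Field F] (i : ℕ) : Gr F :=
  ExteriorAlgebra.ι F (Finsupp.single i (1 : F))

noncomputable def wd (F : Type) [Field F] (l : List ℕ) : Gr F := (l.map (ee F)).prod

theorem wd_nil : wd F [] = 1 := rfl
theorem wd_cons (i : ℕ) (l : List ℕ) : wd F (i :: l) = ee F i * wd F l := by simp [wd]
theorem wd_append (l l' : List ℕ) : wd F (l ++ l') = wd F l * wd F l' := by simp [wd]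

theorem ee_sq (i : ℕ) : ee F i * ee F i = 0 := ExteriorAlgebra.ι_sq_zero _

theorem ee_anti (i j : ℕ) : ee F i * ee F j = -(ee F j * ee F i) :=
  eq_neg_of_add_eq_zero_left (ExteriorAlgebra.ι_add_mul_swap _ _)

theorem ee_wd (i : ℕ) (l : List ℕ) :
    ee F i * wd F l = (-1 : F) ^ l.length • (wd F l * ee F i) := by
  induction l with
  | nil => simp [wd_nil]
  | cons j l ih =>
    rw [wd_cons, ← mul_assoc, ee_anti, neg_mul, mul_assoc, ih, List.length_cons, pow_succ,
      mul_smul_comm, mul_assoc]
    module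

theorem wd_ee (i : ℕ) (l : List ℕ) :
    wd F l * ee F i = (-1 : F) ^ l.length • (ee F i * wd F l) := by
  rw [ee_wd, smul_smul, ← mul_pow]; simp

theorem wd_wd (l l' : List ℕ) :
    wd F l * wd F l' = (-1 : F) ^ (l.length * l'.length) • (wd F l' * wd F l) := by
  induction l with
  | nil => simp [wd_nil]
  | cons j l ih =>
    rw [wd_cons, mul_assoc, ih, mul_smul_comm, ← mul_assoc, ee_wd, smul_mul_assoc, smul_smul,
      List.length_cons, add_mul, one_mul, pow_add, mul_assoc]

theorem ee_wd_mem {i : ℕ} {l : List ℕ} (h : i ∈ l) : ee F i * wd F l = 0 := by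
  obtain ⟨s, t, rfl⟩ := List.append_of_mem h
  rw [wd_append, wd_cons, ← mul_assoc, ee_wd, smul_mul_assoc, mul_assoc, ← mul_assoc (ee F i),
    ee_sq]
  simp

theorem wd_sq {l : List ℕ} (h : l ≠ []) : wd F l * wd F l = 0 := by
  obtain ⟨i, t, rfl⟩ := List.exists_cons_of_ne_nil h
  rw [wd_cons, mul_assoc, ← mul_assoc (wd F t), wd_ee, smul_mul_assoc, mul_smul_comm,
    mul_assoc, ← mul_assoc (ee F i), ee_sq]
  simp

noncomputable def con (F : Type) [Field F] (i : ℕ) : Gr F →ₗ[F] Gr F :=
  CliffordAlgebra.contractLeft (Q := 0) (Finsupp.lapply i)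

theorem con_ee_mul (i j : ℕ) (x : Gr F) :
    con F i (ee F j * x) = (if j = i then x else 0) - ee F j * con F i x := by
  have := CliffordAlgebra.contractLeft_ι_mul (Q := (0 : QuadraticForm F (ℕ →₀ F)))
    (Finsupp.lapply i) (Finsupp.single j (1 : F)) x
  refine this.trans ?_
  congr 1
  simp only [Finsupp.lapply_apply, Finsupp.single_apply]
  split_ifs <;> simp

theorem con_wd {i : ℕ} {l : List ℕ} (h : i ∉ l) : con F i (wd F l) = 0 := by
  induction l with
  | nil => exact CliffordAlgebra.contractLeft_one (Q := 0) _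
  | cons j l ih =>
    rw [List.mem_cons, not_or] at h
    rw [wd_cons, con_ee_mul, ih h.2, if_neg (Ne.symm h.1)]
    simp

theorem con_cons {i : ℕ} {l : List ℕ} (h : i ∉ l) : con F i (wd F (i :: l)) = wd F l := by
  rw [wd_cons, con_ee_mul, con_wd h]; simp

noncomputable def tau (F : Type) [Field F] : List ℕ → Gr F →ₗ[F] F
  | [] => (ExteriorAlgebra.algebraMapInv (R := F) (M := ℕ →₀ F)).toLinearMap
  | i :: l => tau F l ∘ₗ con F i

theorem tau_cons {i : ℕ} {l : List ℕ} (l0 : List ℕ) (h : i ∉ l) :
    tau F (i :: l0) (wd F (i :: l)) = tau F l0 (wd F l) := by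
  rw [tau, LinearMap.comp_apply, con_cons h]

theorem tau_self {l : List ℕ} (h : l.Nodup) : tau F l (wd F l) = 1 := by
  induction l with
  | nil => simp [tau, wd_nil]
  | cons i l ih => rw [tau_cons _ (List.nodup_cons.1 h).1, ih (List.nodup_cons.1 h).2]

theorem tau_zero (l0 : List ℕ) : ∀ l : List ℕ, ¬ l.Perm l0 → tau F l0 (wd F l) = 0 := by
  induction l0 with
  | nil =>
    intro l h
    obtain ⟨i, t, rfl⟩ := List.exists_cons_of_ne_nil (fun e => h (e ▸ List.Perm.refl _))
    simp [tau, wd_cons, ee, ExteriorAlgebra.algebraMapInv]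
  | cons i l0 ih =>
    intro l h
    by_cases hi : i ∈ l
    · obtain ⟨s, t, rfl⟩ := List.append_of_mem hi
      have e : wd F (s ++ i :: t) = (-1 : F) ^ s.length • (ee F i * wd F (s ++ t)) := by
        rw [wd_append, wd_cons, ← mul_assoc, wd_ee, smul_mul_assoc, mul_assoc, wd_append]
      rw [e, map_smul]
      by_cases hj : i ∈ s ++ t
      · rw [ee_wd_mem hj]; simp
      · rw [← wd_cons, tau_cons _ hj, ih _ fun hp => h (List.perm_middle.trans (hp.cons i))]
        simp
    · rw [tau, LinearMap.comp_apply, con_wd hi, map_zero]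

def top : ℕ → List ℕ
  | 0 => []
  | m + 1 => (2 * m) :: (2 * m + 1) :: top m

theorem mem_top {m i : ℕ} : i ∈ top m ↔ i < 2 * m := by
  induction m with
  | zero => simp [top]
  | succ m ih => simp only [top, List.mem_cons, ih]; omega

theorem top_nodup (m : ℕ) : (top m).Nodup := by
  induction m with
  | zero => simp [top]
  | succ m ih =>
    simp only [top, List.nodup_cons, List.mem_cons, mem_top, ih, and_true]; omega

theorem top_length (m : ℕ) : (top m).length = 2 * m := by
  induction m with
  | zero => rfl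
  | succ m ih => simp only [top, List.length_cons, ih]; omega

section Q
variable {B : Type} [Ring B] [Algebra F B] (X Y : B)

open Classical in
def zz (ε : Finset ℕ) (i : ℕ) : B := if (i / 2 ∈ ε ↔ i % 2 = 0) then Y else X

def zw (ε : Finset ℕ) (l : List ℕ) : B := (l.map (zz X Y ε)).prod

theorem zw_append (ε : Finset ℕ) (l l' : List ℕ) :
    zw X Y ε (l ++ l') = zw X Y ε l * zw X Y ε l' := by simp [zw]

theorem zw_cons (ε : Finset ℕ) (i : ℕ) (l : List ℕ) :
    zw X Y ε (i :: l) = zz X Y ε i * zw X Y ε l := by simp [zw]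

theorem zw_insert (ε : Finset ℕ) (m : ℕ) {l : List ℕ} (h : ∀ i ∈ l, i < 2 * m) :
    zw X Y (insert m ε) l = zw X Y ε l := by
  unfold zw
  congr 1
  refine List.map_congr_left fun i hi => ?_
  have := h i hi
  have e : i / 2 ≠ m := by omega
  simp [zz, e]

variable (F) in
def SS (m : ℕ) (l : List ℕ) : B :=
  ∑ ε ∈ (Finset.range m).powerset, (-1 : F) ^ ε.card • zw X Y ε l

variable {X Y}

theorem gam_step (h : X * Y - Y * X = 1) (ε : Finset ℕ) (u : B) (i : ℕ) :
    X * (u * zz X Y ε i) * Y - Y * (u * zz X Y ε i) * X =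
      (X * u * Y - Y * u * X) * zz X Y ε i + zz X Y ε i * u := by
  unfold zz
  split_ifs
  · linear_combination (norm := noncomm_ring) (Y * u) * h
  · linear_combination (norm := noncomm_ring) (X * u) * h

theorem gam_sum (h : X * Y - Y * X = 1) (h3 : (3 : F) = 0) {m : ℕ}
    (ih : ∀ l : List ℕ, l.Perm (top m) → SS F X Y m l = tau F (top m) (wd F l) • (1 : B))
    (l1 u : List ℕ) : ∀ l2 : List ℕ, (l1 ++ u ++ l2).Perm (top m) →
      ∑ ε ∈ (Finset.range m).powerset, (-1 : F) ^ ε.card •
        (zw X Y ε l1 * (X * zw X Y ε u * Y - Y * zw X Y ε u * X) * zw X Y ε l2) =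
      ((-1 : F) ^ u.length * tau F (top m) (wd F (l1 ++ u ++ l2))) • (1 : B) := by
  induction u using List.reverseRecOn with
  | nil =>
    intro l2 hp
    rw [List.length_nil, pow_zero, one_mul, ← ih _ hp]
    refine Finset.sum_congr rfl fun ε _ => ?_
    simp [zw, h]
  | append_singleton u c ihu =>
    intro l2 hp
    have p1 : (l1 ++ u ++ c :: l2).Perm (top m) := by simpa using hp
    have p2 : (l1 ++ c :: u ++ l2).Perm (top m) := by
      refine List.Perm.trans ?_ p1
      simp only [List.append_assoc, List.cons_append]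
      exact (List.perm_middle.symm).append_left _
    have e : wd F (l1 ++ c :: u ++ l2) = (-1 : F) ^ u.length • wd F (l1 ++ u ++ c :: l2) := by
      simp only [wd_append, wd_cons, ee_wd c u, mul_smul_comm, smul_mul_assoc, mul_assoc]
    have e2 : l1 ++ (u ++ [c]) ++ l2 = l1 ++ u ++ c :: l2 := by simp
    have h1 := ihu _ p1
    have h2 := ih _ p2
    rw [e, map_smul, SS] at h2
    rw [e2, List.length_append, List.length_singleton, pow_succ]
    have h4 : ((-1 : F) ^ u.length * -1 * tau F (top m) (wd F (l1 ++ u ++ c :: l2))) • (1 : B) =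
        ((-1 : F) ^ u.length * tau F (top m) (wd F (l1 ++ u ++ c :: l2))) • (1 : B) +
        ((-1 : F) ^ u.length • tau F (top m) (wd F (l1 ++ u ++ c :: l2))) • (1 : B) := by
      rw [← add_smul, smul_eq_mul]
      congr 1
      linear_combination (-((-1 : F) ^ u.length * tau F (top m) (wd F (l1 ++ u ++ c :: l2)))) * h3
    rw [h4, ← h1, ← h2, ← Finset.sum_add_distrib]
    refine Finset.sum_congr rfl fun ε _ => ?_
    rw [← smul_add]
    congr 1
    have : zw X Y ε [c] = zz X Y ε c := by simp [zw]
    rw [zw_append, this, gam_step h, zw_append, zw_append, zw_cons, zw_cons]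
    noncomm_ring

theorem SS_eq (h : X * Y - Y * X = 1) (h3 : (3 : F) = 0) (m : ℕ) :
    ∀ l : List ℕ, l.Perm (top m) → SS F X Y m l = tau F (top m) (wd F l) • (1 : B) := by
  induction m with
  | zero =>
    intro l hl
    obtain rfl : l = [] := List.perm_nil.1 hl
    simp [SS, zw, top, tau, wd_nil]
  | succ m ih =>
    have key : ∀ (a b : ℕ) (l1 u l2 : List ℕ), (l1 ++ u ++ l2).Perm (top m) →
        wd F (l1 ++ a :: u ++ b :: l2) =
          (-1 : F) ^ u.length • wd F (a :: b :: (l1 ++ u ++ l2)) := by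
      intro a b l1 u l2 _
      have c1 : wd F l1 * (ee F a * ee F b) = ee F a * ee F b * wd F l1 := by
        have := wd_wd (F := F) l1 [a, b]
        simpa [wd_cons, wd_nil, pow_mul'] using this
      simp only [wd_append, wd_cons]
      rw [← mul_assoc, mul_assoc (wd F l1), mul_assoc (ee F a), wd_ee b u]
      simp only [mul_smul_comm, smul_mul_assoc]
      rw [← mul_assoc (ee F a), ← mul_assoc (wd F l1), c1]
      simp only [mul_assoc]
    have hs : ∀ l : List ℕ, SS F X Y (m + 1) l = ∑ ε ∈ (Finset.range m).powerset,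
        (-1 : F) ^ ε.card • (zw X Y ε l - zw X Y (insert m ε) l) := by
      intro l
      rw [SS, Finset.range_add_one, Finset.sum_powerset_insert (by simp), ← Finset.sum_add_distrib]
      refine Finset.sum_congr rfl fun ε hε => ?_
      have : m ∉ ε := fun hm => by simpa using Finset.mem_powerset.1 hε hm
      rw [Finset.card_insert_of_notMem this, pow_succ]
      module
    have hz : ∀ ε ∈ (Finset.range m).powerset, zz X Y ε (2 * m) = X ∧ zz X Y ε (2 * m + 1) = Y ∧
        zz X Y (insert m ε) (2 * m) = Y ∧ zz X Y (insert m ε) (2 * m + 1) = X := by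
      intro ε hε
      have : m ∉ ε := fun hm => by simpa using Finset.mem_powerset.1 hε hm
      have e1 : (2 * m + 1) / 2 = m := by omega
      have e2 : (2 * m + 1) % 2 = 1 := by omega
      simp [zz, this, e1, e2]
    have ht : ∀ l : List ℕ, l.Perm (top m) →
        tau F (top (m + 1)) (wd F (2 * m :: (2 * m + 1) :: l)) = tau F (top m) (wd F l) := by
      intro l hl
      rw [top, tau_cons, tau_cons]
      · rw [hl.mem_iff, mem_top]; omega
      · rw [List.mem_cons, hl.mem_iff, mem_top]; omega
    intro l hl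
    have ha : 2 * m ∈ l := hl.mem_iff.2 (by simp [top])
    obtain ⟨s, t, rfl⟩ := List.append_of_mem ha
    have hl1 : (s ++ t).Perm ((2 * m + 1) :: top m) := (List.perm_middle.symm.trans hl).cons_inv
    have hb : 2 * m + 1 ∈ s ++ t := hl1.mem_iff.2 (by simp)
    rcases List.mem_append.1 hb with hb | hb
    · obtain ⟨l1, u, rfl⟩ := List.append_of_mem hb
      have hp : (l1 ++ u ++ t).Perm (top m) := by
        rw [List.append_assoc, List.cons_append] at hl1
        rw [List.append_assoc]
        exact (List.perm_middle.symm.trans hl1).cons_inv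
      have hlt : ∀ i ∈ l1 ++ u ++ t, i < 2 * m := fun i hi => mem_top.1 (hp.mem_iff.1 hi)
      have e : wd F ((2 * m + 1) :: 2 * m :: (l1 ++ u ++ t)) =
          -wd F (2 * m :: (2 * m + 1) :: (l1 ++ u ++ t)) := by
        simp only [wd_cons, ← mul_assoc]; rw [ee_anti, neg_mul]
      rw [key _ _ _ _ _ hp, e, map_smul, map_neg, ht _ hp, smul_neg, neg_smul, smul_eq_mul,
        ← gam_sum h h3 ih l1 u t hp, hs, ← Finset.sum_neg_distrib]
      refine Finset.sum_congr rfl fun ε hε => ?_
      obtain ⟨z1, z2, z3, z4⟩ := hz ε hε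
      rw [← smul_neg]
      congr 1
      simp only [zw_append, zw_cons, z1, z2, z3, z4]
      rw [zw_insert X Y ε m (l := l1) fun i hi => hlt i (by simp [hi]),
        zw_insert X Y ε m (l := u) fun i hi => hlt i (by simp [hi]),
        zw_insert X Y ε m (l := t) fun i hi => hlt i (by simp [hi])]
      noncomm_ring
    · obtain ⟨u, l2, rfl⟩ := List.append_of_mem hb
      have hp : (s ++ u ++ l2).Perm (top m) := by
        rw [← List.append_assoc] at hl1
        exact (List.perm_middle.symm.trans hl1).cons_inv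
      have hlt : ∀ i ∈ s ++ u ++ l2, i < 2 * m := fun i hi => mem_top.1 (hp.mem_iff.1 hi)
      have e : s ++ 2 * m :: (u ++ (2 * m + 1) :: l2) = s ++ 2 * m :: u ++ (2 * m + 1) :: l2 := by
        simp
      rw [e, key _ _ _ _ _ hp, map_smul, ht _ hp, smul_eq_mul, ← gam_sum h h3 ih s u l2 hp, hs]
      refine Finset.sum_congr rfl fun ε hε => ?_
      obtain ⟨z1, z2, z3, z4⟩ := hz ε hε
      congr 1
      simp only [zw_append, zw_cons, z1, z2, z3, z4]
      rw [zw_insert X Y ε m (l := s) fun i hi => hlt i (by simp [hi]),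
        zw_insert X Y ε m (l := u) fun i hi => hlt i (by simp [hi]),
        zw_insert X Y ε m (l := l2) fun i hi => hlt i (by simp [hi])]
      noncomm_ring

end Q

end Pool.Agent.H.MP_63ef02_al
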