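import Mathlib

set_option linter.unusedSimpArgs false

namespace Pool.Agent.H.MP_63ef02_al

structure DG (F Ω : Type) [Field F] [Ring Ω] [Algebra F Ω] where
  Ev : Submodule F Ω
  Od : Submodule F Ω
  Dg : ℕ → Submodule F Ω
  d : Ω →ₗ[F] Ω
  one_mem : 1 ∈ Ev
  ee : ∀ a ∈ Ev, ∀ b ∈ Ev, a * b ∈ Ev
  oo : ∀ a ∈ Od, ∀ b ∈ Od, a * b ∈ Ev
  eo : ∀ a ∈ Ev, ∀ b ∈ Od, a * b ∈ Od
  de : ∀ a ∈ Ev, d a ∈ Od
  cen : ∀ a ∈ Ev, ∀ x, x * a = a * x
  anti : ∀ u ∈ Od, ∀ v ∈ Od, u * v = -(v * u)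
  le : ∀ a ∈ Ev, ∀ x, d (a * x) = d a * x + a * d x
  lo : ∀ u ∈ Od, ∀ x, d (u * x) = d u * x - u * d x
  dd : ∀ x, d (d x) = 0
  dg0 : Dg 0 ≤ Ev
  dgm : ∀ i j, ∀ a ∈ Dg i, ∀ b ∈ Dg j, a * b ∈ Dg (i + j)
  dgd : ∀ a ∈ Dg 0, d a ∈ Dg 1
  gen : Ev ≤ Submodule.span F {g | g ∈ Ev ∧ (g ∈ Dg 0 ∨ g * g = 0)}
  three : ∀ x : Ω, x + x + x = 0

def ww {A : Type} [Ring A] (x : ℕ → A) : ℕ → A
  | 0 => 1
  | k + 1 => x (2 * k) * x (2 * k) * (x (2 * k + 1) * x (2 * k + 1)) *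
      (x (2 * k) * x (2 * k + 1) - x (2 * k + 1) * x (2 * k)) * ww x k

theorem ww_map {A B : Type} [Ring A] [Ring B] (f : A →+* B) (x : ℕ → A) (k : ℕ) :
    f (ww x k) = ww (fun i => f (x i)) k := by
  induction k with
  | zero => simp [ww]
  | succ k ih => simp [ww, ih]

namespace DG

variable {F Ω : Type} [Field F] [Ring Ω] [Algebra F Ω] (D : DG F Ω)

theorem d_one : D.d 1 = 0 := by
  have := D.le 1 D.one_mem 1
  simpa using this

theorem od_sq {u : Ω} (hu : u ∈ D.Od) : u * u = 0 := by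
  have h1 := D.anti u hu u hu
  have h2 := D.three (u * u)
  linear_combination (norm := abel1) h2 - h1

theorem od_sq' {u : Ω} (hu : u ∈ D.Od) (y : Ω) : u * (u * y) = 0 := by
  rw [← mul_assoc, D.od_sq hu, zero_mul]

theorem cen' {a : Ω} (ha : a ∈ D.Ev) (x y : Ω) : x * (a * y) = a * (x * y) := by
  rw [← mul_assoc, D.cen a ha, mul_assoc]

theorem anti' {u v : Ω} (hu : u ∈ D.Od) (hv : v ∈ D.Od) (y : Ω) :
    u * (v * y) = -(v * (u * y)) := by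
  rw [← mul_assoc, D.anti u hu v hv, neg_mul, mul_assoc]

def R0 : Subalgebra F Ω where
  carrier := {x | ∃ a ∈ D.Ev, x = a + D.d a}
  mul_mem' := by
    rintro _ _ ⟨a, ha, rfl⟩ ⟨b, hb, rfl⟩
    refine ⟨a * b + D.d a * D.d b,
      D.Ev.add_mem (D.ee a ha b hb) (D.oo _ (D.de a ha) _ (D.de b hb)), ?_⟩
    rw [map_add, D.le a ha, D.lo _ (D.de a ha), D.dd, D.dd]
    noncomm_ring
  add_mem' := by
    rintro _ _ ⟨a, ha, rfl⟩ ⟨b, hb, rfl⟩
    exact ⟨a + b, D.Ev.add_mem ha hb, by rw [map_add]; abel⟩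
  algebraMap_mem' := fun r => ⟨algebraMap F Ω r, by
    rw [Algebra.algebraMap_eq_smul_one]; exact D.Ev.smul_mem r D.one_mem, by
    rw [Algebra.algebraMap_eq_smul_one, map_smul, D.d_one]; simp⟩

theorem comm_eq {a b : Ω} (ha : a ∈ D.Ev) (hb : b ∈ D.Ev) :
    (a + D.d a) * (b + D.d b) - (b + D.d b) * (a + D.d a) = D.d a * D.d b + D.d a * D.d b := by
  simp only [mul_add, add_mul, D.cen a ha b, D.cen a ha (D.d b), D.cen b hb (D.d a),
    D.anti _ (D.de b hb) _ (D.de a ha)]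
  abel

theorem comm3 {x y z : Ω} (hx : x ∈ D.R0) (hy : y ∈ D.R0) :
    (x * y - y * x) * z - z * (x * y - y * x) = 0 := by
  obtain ⟨a, ha, rfl⟩ := hx
  obtain ⟨b, hb, rfl⟩ := hy
  have h := D.oo _ (D.de a ha) _ (D.de b hb)
  rw [D.comm_eq ha hb, D.cen _ (D.Ev.add_mem h h), sub_self]

theorem cube {a : Ω} (ha : a ∈ D.Ev) :
    (a + D.d a) * (a + D.d a) * (a + D.d a) = a * a * a := by
  have h := D.three (a * (a * D.d a))
  simp only [mul_add, add_mul, mul_assoc, D.cen a ha (D.d a), D.cen' ha (D.d a),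
    D.od_sq (D.de a ha), D.od_sq' (D.de a ha), mul_zero, add_zero]
  linear_combination (norm := abel1) h

def kap (a : Ω) : Ω := a * a * D.d a

theorem kap_mem {a : Ω} (ha : a ∈ D.Ev) : D.kap a ∈ D.Od :=
  D.eo _ (D.ee a ha a ha) _ (D.de a ha)

theorem block {a b : Ω} (ha : a ∈ D.Ev) (hb : b ∈ D.Ev) :
    (a + D.d a) * (a + D.d a) * ((b + D.d b) * (b + D.d b)) *
      ((a + D.d a) * (b + D.d b) - (b + D.d b) * (a + D.d a)) =
      D.kap a * D.kap b + D.kap a * D.kap b := by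
  rw [D.comm_eq ha hb]
  simp only [kap, mul_add, add_mul, mul_assoc, D.cen a ha (D.d a), D.cen' ha (D.d a),
    D.cen b hb (D.d a), D.cen' hb (D.d a), D.cen b hb (D.d b), D.cen' hb (D.d b),
    D.anti' (D.de b hb) (D.de a ha), D.od_sq (D.de a ha), D.od_sq' (D.de a ha),
    D.od_sq (D.de b hb), D.od_sq' (D.de b hb), mul_zero, add_zero, mul_neg, neg_zero, zero_mul]

theorem d_kap {a : Ω} (ha : a ∈ D.Ev) : D.d (D.kap a) = 0 := by
  rw [kap, mul_assoc, D.le a ha, D.le a ha, D.dd, D.cen' ha (D.d a), D.od_sq (D.de a ha)]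
  simp

theorem kap_add {a b : Ω} (ha : a ∈ D.Ev) (hb : b ∈ D.Ev) :
    D.kap (a + b) = D.kap a + D.kap b + D.d (a * (a * b) + a * (b * b)) := by
  simp only [kap, map_add, D.le a ha, D.le b hb, mul_add, add_mul, mul_assoc, D.cen a ha b,
    D.cen' ha b, D.cen' ha (D.d a), D.cen b hb (D.d a), D.cen' hb (D.d a), D.cen b hb (D.d b)]
  abel

theorem cube_add {a b : Ω} (ha : a ∈ D.Ev) :
    (a + b) * (a + b) * (a + b) = a * a * a + b * b * b := by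
  have h := D.three (a * (a * b) + a * (b * b))
  simp only [mul_add, add_mul, mul_assoc, D.cen a ha b, D.cen' ha b]
  linear_combination (norm := abel1) h

theorem d_cube {a : Ω} (ha : a ∈ D.Ev) : D.d (a * a * a) = 0 := by
  have h := D.three (a * (a * D.d a))
  simp only [mul_assoc, D.le a ha, mul_add, D.cen a ha (D.d a), D.cen' ha (D.d a)]
  linear_combination (norm := abel1) h

theorem red {a : Ω} (ha : a ∈ D.Ev) :
    ∃ f ∈ D.Dg 0, a * a * a = f * f * f ∧ ∃ y, D.kap a = D.kap f + D.d y := by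
  suffices h : ∀ a ∈ Submodule.span F {g | g ∈ D.Ev ∧ (g ∈ D.Dg 0 ∨ g * g = 0)}, a ∈ D.Ev ∧
      ∃ f ∈ D.Dg 0, a * a * a = f * f * f ∧ ∃ y, D.kap a = D.kap f + D.d y from
    (h a (D.gen ha)).2
  intro a ha
  induction ha using Submodule.span_induction with
  | mem g hg =>
    obtain ⟨h1, h2 | h2⟩ := hg
    · exact ⟨h1, g, h2, rfl, 0, by simp⟩
    · exact ⟨h1, 0, zero_mem _, by simp [h2], 0, by simp [kap, h2]⟩
  | zero => exact ⟨zero_mem _, 0, zero_mem _, rfl, 0, by simp⟩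
  | add a b _ _ h1 h2 =>
    obtain ⟨ha, f, hf, e1, y, e2⟩ := h1
    obtain ⟨hb, g, hg, e3, z, e4⟩ := h2
    refine ⟨add_mem ha hb, f + g, add_mem hf hg, ?_,
      y + z + (a * (a * b) + a * (b * b)) - (f * (f * g) + f * (g * g)), ?_⟩
    · rw [D.cube_add ha, D.cube_add (D.dg0 hf), e1, e3]
    · rw [D.kap_add ha hb, D.kap_add (D.dg0 hf) (D.dg0 hg), e2, e4]
      simp only [map_add, map_sub]
      abel
  | smul c a _ h1 =>
    obtain ⟨ha, f, hf, e1, y, e2⟩ := h1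
    have hk : ∀ x, D.kap (c • x) = (c * c * c) • D.kap x := fun x => by
      simp only [kap, map_smul, smul_mul_assoc, mul_smul_comm, smul_smul, mul_assoc]
    refine ⟨D.Ev.smul_mem c ha, c • f, (D.Dg 0).smul_mem c hf, ?_, (c * c * c) • y, ?_⟩
    · simp only [smul_mul_assoc, mul_smul_comm, e1]
    · rw [hk, hk, e2, map_smul, smul_add]

def Z (j : ℕ) (ω : Ω) : Prop := D.d ω = 0 ∧ ∃ η ∈ D.Dg j, ∃ x, ω = η + D.d x

theorem Z_add {j : ℕ} {ω ω' : Ω} (h : D.Z j ω) (h' : D.Z j ω') : D.Z j (ω + ω') := by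
  obtain ⟨h1, η, hη, x, e⟩ := h
  obtain ⟨h2, η', hη', x', e'⟩ := h'
  refine ⟨by rw [map_add, h1, h2, add_zero], η + η', add_mem hη hη', x + x', ?_⟩
  rw [e, e', map_add]; abel

theorem Z_cube {a : Ω} (ha : a ∈ D.Ev) : D.Z 0 (a * a * a) := by
  obtain ⟨f, hf, e, -⟩ := D.red ha
  exact ⟨D.d_cube ha, f * f * f, D.dgm 0 0 _ (D.dgm 0 0 _ hf _ hf) _ hf, 0, by simp [e]⟩

theorem Z_kap (hdec : ∀ y : Ω, ∃ a ∈ D.Ev, ∃ u ∈ D.Od, y = a + u) {a : Ω} (ha : a ∈ D.Ev)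
    {j : ℕ} {ω : Ω} (h : D.Z j ω) : D.Z (1 + j) (D.kap a * ω) := by
  obtain ⟨f, hf, -, y, e⟩ := D.red ha
  obtain ⟨h1, η, hη, x, e'⟩ := h
  have h2 : D.d (y * ω) = D.d y * ω := by
    obtain ⟨b, hb, u, hu, rfl⟩ := hdec y
    rw [add_mul, map_add, D.le b hb, D.lo u hu, h1, map_add, add_mul]; simp
  refine ⟨by rw [D.lo _ (D.kap_mem ha), D.d_kap ha, h1]; simp, D.kap f * η,
    D.dgm 1 j _ (D.dgm 0 1 _ (D.dgm 0 0 _ hf _ hf) _ (D.dgd f hf)) _ hη,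
    y * ω - D.kap f * x, ?_⟩
  rw [map_sub, h2, D.lo _ (D.kap_mem (D.dg0 hf)), D.d_kap (D.dg0 hf), e, add_mul]
  conv_lhs => enter [1]; rw [e']
  noncomm_ring

theorem ww_mem {x : ℕ → Ω} (hx : ∀ i, x i ∈ D.R0) (k : ℕ) : ww x k ∈ D.Ev := by
  induction k with
  | zero => exact D.one_mem
  | succ k ih =>
    obtain ⟨a, ha, e1⟩ := hx (2 * k)
    obtain ⟨b, hb, e2⟩ := hx (2 * k + 1)
    have h := D.oo _ (D.kap_mem ha) _ (D.kap_mem hb)
    rw [ww, e1, e2, D.block ha hb]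
    exact D.ee _ (add_mem h h) _ ih

theorem Z_ww (hdec : ∀ y : Ω, ∃ a ∈ D.Ev, ∃ u ∈ D.Od, y = a + u) {x : ℕ → Ω}
    (hx : ∀ i, x i ∈ D.R0) {A C : Ω} (hA : A ∈ D.R0) (hC : C ∈ D.R0) (k : ℕ) :
    D.Z (2 * k) (A * ww x k * C * A * C * A * C) := by
  obtain ⟨c, hc, e⟩ := D.R0.mul_mem hA hC
  have e1 : A * ww x k * C * A * C * A * C = ww x k * (c * c * c) := by
    rw [← D.cube hc, ← e, D.cen _ (D.ww_mem hx k)]
    simp only [mul_assoc]
  rw [e1]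
  clear e1
  induction k with
  | zero => rw [ww, one_mul]; exact D.Z_cube hc
  | succ k ih =>
    obtain ⟨a, ha, e1⟩ := hx (2 * k)
    obtain ⟨b, hb, e2⟩ := hx (2 * k + 1)
    have h := D.Z_kap hdec ha (D.Z_kap hdec hb ih)
    have e3 : 1 + (1 + 2 * k) = 2 * (k + 1) := by omega
    rw [e3] at h
    rw [ww, e1, e2, D.block ha hb, mul_assoc, add_mul, mul_assoc]
    exact D.Z_add h h

end DG

end Pool.Agent.H.MP_63ef02_al
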