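import Pool.Agent.H.MP_63ef02_al.B
import Pool.Agent.H.MP_63ef02_al.C

set_option linter.unusedSimpArgs false

namespace Pool.Agent.H.MP_63ef02_al

open TensorProduct MvPolynomial

variable {F : Type} [Field F]

abbrev PP (F : Type) [Field F] := MvPolynomial ℕ F
abbrev Om (F : Type) [Field F] := PP F ⊗[F] Gr F

noncomputable def toGr (F : Type) [Field F] : FreeAlgebra F ℕ →ₐ[F] Gr F :=
  FreeAlgebra.lift F (ee F)

theorem toGr_word (l : List ℕ) : toGr F (l.map (FreeAlgebra.ι F)).prod = wd F l := by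
  induction l with
  | nil => simp [wd_nil]
  | cons i l ih => rw [List.map_cons, List.prod_cons, map_mul, ih, wd_cons]; simp [toGr]

theorem toGr_surj : Function.Surjective (toGr F) := by
  intro g
  change g ∈ (toGr F).range
  induction g using ExteriorAlgebra.induction with
  | algebraMap r => exact Subalgebra.algebraMap_mem _ r
  | ι v =>
    induction v using Finsupp.induction_linear with
    | zero => simp
    | add f g hf hg => rw [map_add]; exact add_mem hf hg
    | single i c =>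
      have : Finsupp.single i c = c • Finsupp.single i (1 : F) := by simp
      rw [this, map_smul]
      exact Subalgebra.smul_mem _ ((AlgHom.mem_range _).2 ⟨FreeAlgebra.ι F i, by simp [toGr, ee]⟩) c
  | mul a b ha hb => exact mul_mem ha hb
  | add a b ha hb => exact add_mem ha hb

theorem gr_span (g : Gr F) : g ∈ Submodule.span F (Set.range (wd F)) := by
  obtain ⟨a, rfl⟩ := toGr_surj g
  induction span_words a using Submodule.span_induction with
  | mem x hx => obtain ⟨l, rfl⟩ := hx; exact Submodule.subset_span ⟨l, (toGr_word l).symm⟩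
  | zero => simp
  | add y z _ _ h1 h2 => rw [map_add]; exact add_mem h1 h2
  | smul c y _ h1 => rw [map_smul]; exact Submodule.smul_mem _ _ h1

noncomputable def Sp (F : Type) [Field F] (T : ℕ → Prop) : Submodule F (Om F) :=
  Submodule.span F {x | ∃ (p : PP F) (l : List ℕ), T l.length ∧ x = p ⊗ₜ[F] wd F l}

theorem sp_mem {T : ℕ → Prop} (p : PP F) {l : List ℕ} (h : T l.length) :
    p ⊗ₜ[F] wd F l ∈ Sp F T := Submodule.subset_span ⟨p, l, h, rfl⟩

theorem sp_le {T : ℕ → Prop} {W : Submodule F (Om F)}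
    (h : ∀ (p : PP F) (l : List ℕ), T l.length → p ⊗ₜ[F] wd F l ∈ W) : Sp F T ≤ W :=
  Submodule.span_le.2 (by rintro _ ⟨p, l, hl, rfl⟩; exact h p l hl)

theorem sp_top (x : Om F) : x ∈ Sp F fun _ => True := by
  induction x using TensorProduct.induction_on with
  | zero => simp
  | add x y hx hy => exact add_mem hx hy
  | tmul p g =>
    induction gr_span g using Submodule.span_induction with
    | mem x hx => obtain ⟨l, rfl⟩ := hx; exact sp_mem p trivial
    | zero => simp
    | add y z _ _ h1 h2 => rw [tmul_add]; exact add_mem h1 h2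
    | smul c y _ h1 => rw [tmul_smul]; exact Submodule.smul_mem _ _ h1

theorem sp_bil {T U : ℕ → Prop} (B : Om F →ₗ[F] Om F →ₗ[F] Om F) (W : Submodule F (Om F))
    (h : ∀ (p q : PP F) (l l' : List ℕ), T l.length → U l'.length →
      B (p ⊗ₜ[F] wd F l) (q ⊗ₜ[F] wd F l') ∈ W) {x y : Om F} (hx : x ∈ Sp F T)
    (hy : y ∈ Sp F U) : B x y ∈ W := by
  have h1 : ∀ (p : PP F) (l : List ℕ), T l.length → B (p ⊗ₜ[F] wd F l) y ∈ W := fun p l hl =>
    sp_le (W := W.comap (B (p ⊗ₜ[F] wd F l))) (fun q l' hl' => h p q l l' hl hl') hy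
  exact sp_le (W := W.comap (B.flip y)) h1 hx

theorem sp_mul {T U V : ℕ → Prop} (h : ∀ i j, T i → U j → V (i + j)) {x y : Om F}
    (hx : x ∈ Sp F T) (hy : y ∈ Sp F U) : x * y ∈ Sp F V :=
  sp_bil (LinearMap.mul F (Om F)) _ (fun p q l l' hl hl' => by
    rw [LinearMap.mul_apply', Algebra.TensorProduct.tmul_mul_tmul, ← wd_append]
    exact sp_mem _ (by rw [List.length_append]; exact h _ _ hl hl')) hx hy

theorem sp_ext {T U : ℕ → Prop} (B B' : Om F →ₗ[F] Om F →ₗ[F] Om F)
    (h : ∀ (p q : PP F) (l l' : List ℕ), T l.length → U l'.length →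
      B (p ⊗ₜ[F] wd F l) (q ⊗ₜ[F] wd F l') = B' (p ⊗ₜ[F] wd F l) (q ⊗ₜ[F] wd F l'))
    {x y : Om F} (hx : x ∈ Sp F T) (hy : y ∈ Sp F U) : B x y = B' x y := by
  have h1 : ∀ (p : PP F) (l : List ℕ), T l.length →
      B (p ⊗ₜ[F] wd F l) y = B' (p ⊗ₜ[F] wd F l) y := fun p l hl =>
    sp_le (W := LinearMap.eqLocus (B (p ⊗ₜ[F] wd F l)) (B' (p ⊗ₜ[F] wd F l)))
      (fun q l' hl' => h p q l l' hl hl') hy
  exact sp_le (W := LinearMap.eqLocus (B.flip y) (B'.flip y)) h1 hx

theorem sp_comm {T U : ℕ → Prop} (s : F) (h : ∀ i j, T i → U j → (-1 : F) ^ (i * j) = s)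
    {x y : Om F} (hx : x ∈ Sp F T) (hy : y ∈ Sp F U) : x * y = s • (y * x) :=
  sp_ext (LinearMap.mul F (Om F)) (s • (LinearMap.mul F (Om F)).flip)
    (fun p q l l' hl hl' => by
      simp only [LinearMap.smul_apply, LinearMap.flip_apply,
        LinearMap.mul_apply', Algebra.TensorProduct.tmul_mul_tmul]
      rw [wd_wd l l', h _ _ hl hl', tmul_smul, mul_comm p q]) hx hy

noncomputable def dd (F : Type) [Field F] (N : ℕ) : Om F →ₗ[F] Om F :=
  ∑ i ∈ Finset.range N,
    TensorProduct.map (pderiv i : Derivation F (PP F) (PP F)).toLinearMap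
      (LinearMap.mulLeft F (ee F i))

theorem dd_tmul (N : ℕ) (p : PP F) (g : Gr F) :
    dd F N (p ⊗ₜ[F] g) = ∑ i ∈ Finset.range N, pderiv i p ⊗ₜ[F] (ee F i * g) := by
  simp [dd, LinearMap.sum_apply]

theorem dd_mem (N : ℕ) {T U : ℕ → Prop} (h : ∀ i, T i → U (i + 1)) {x : Om F}
    (hx : x ∈ Sp F T) : dd F N x ∈ Sp F U :=
  sp_le (W := (Sp F U).comap (dd F N)) (fun p l hl => by
    rw [Submodule.mem_comap, dd_tmul]
    refine Submodule.sum_mem _ fun i _ => ?_
    rw [← wd_cons]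
    exact sp_mem _ (h _ hl)) hx

theorem dd_leib (N : ℕ) {T : ℕ → Prop} (s : F) (h : ∀ i, T i → (-1 : F) ^ i = s)
    {x : Om F} (hx : x ∈ Sp F T) (y : Om F) :
    dd F N (x * y) = dd F N x * y + s • (x * dd F N y) :=
  sp_ext ((LinearMap.mul F (Om F)).compr₂ (dd F N))
    ((LinearMap.mul F (Om F)).compl₁₂ (dd F N) LinearMap.id +
    s • (LinearMap.mul F (Om F)).compl₁₂ LinearMap.id (dd F N))
    (fun p q l l' hl _ => by
      simp only [LinearMap.add_apply, LinearMap.smul_apply, LinearMap.compr₂_apply,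
        LinearMap.compl₁₂_apply, LinearMap.id_apply,
        LinearMap.mul_apply', Algebra.TensorProduct.tmul_mul_tmul, dd_tmul,
        Finset.sum_mul, Finset.mul_sum, Finset.smul_sum, ← Finset.sum_add_distrib]
      refine Finset.sum_congr rfl fun i _ => ?_
      rw [pderiv_mul, add_tmul, ← mul_assoc (wd F l), wd_ee, h _ hl, smul_mul_assoc, tmul_smul,
        smul_smul, ← h _ hl, ← mul_pow]
      simp [mul_assoc]) hx (sp_top y)

theorem pd_comm (i j : ℕ) (p : PP F) : pderiv i (pderiv j p) = pderiv j (pderiv i p) := by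
  by_cases h : i = j
  · rw [h]
  ext m
  simp only [coeff_pderiv, Finsupp.add_apply, Finsupp.single_eq_of_ne h,
    Finsupp.single_eq_of_ne (Ne.symm h), add_zero]
  rw [add_right_comm m]
  ring

theorem om_three (h3 : (3 : F) = 0) (x : Om F) : x + x + x = 0 := by
  have : x + x + x = (3 : F) • x := by module
  rw [this, h3, zero_smul]

theorem dd_dd (h3 : (3 : F) = 0) (N : ℕ) (x : Om F) : dd F N (dd F N x) = 0 := by
  induction x using TensorProduct.induction_on with
  | zero => simp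
  | add x y hx hy => simp [hx, hy]
  | tmul p g =>
    rw [dd_tmul, map_sum]
    simp only [dd_tmul]
    set S := ∑ i ∈ Finset.range N, ∑ j ∈ Finset.range N,
      pderiv j (pderiv i p) ⊗ₜ[F] (ee F j * (ee F i * g)) with hS
    have h1 : S = -S := by
      conv_lhs => rw [hS, Finset.sum_comm]
      rw [hS, ← Finset.sum_neg_distrib]
      refine Finset.sum_congr rfl fun i _ => ?_
      rw [← Finset.sum_neg_distrib]
      refine Finset.sum_congr rfl fun j _ => ?_
      rw [pd_comm, ← mul_assoc, ee_anti, neg_mul, tmul_neg, mul_assoc]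
    have h2 := om_three h3 S
    linear_combination (norm := abel1) h2 - h1

noncomputable def DD (h3 : (3 : F) = 0) (N : ℕ) : DG F (Om F) where
  Ev := Sp F Even
  Od := Sp F Odd
  Dg := fun j => Sp F (· = j)
  d := dd F N
  one_mem := sp_mem (l := []) 1 (by simp)
  ee := fun _ ha _ hb => sp_mul (fun _ _ => Even.add) ha hb
  oo := fun _ ha _ hb => sp_mul (fun _ _ => Odd.add_odd) ha hb
  eo := fun _ ha _ hb => sp_mul (fun _ _ => Even.add_odd) ha hb
  de := fun _ ha => dd_mem N (fun _ => Even.add_one) ha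
  cen := fun a ha x => by
    rw [sp_comm 1 (fun i j _ hj => (hj.mul_left i).neg_one_pow) (sp_top x) ha, one_smul]
  anti := fun u hu v hv => by
    rw [sp_comm (-1) (fun i j hi hj => (hi.mul hj).neg_one_pow) hu hv]
    exact neg_one_smul F (v * u)
  le := fun a ha x => by rw [dd_leib N 1 (fun i hi => hi.neg_one_pow) ha, one_smul]
  lo := fun a ha x => by
    rw [dd_leib N (-1) (fun i hi => hi.neg_one_pow) ha, sub_eq_add_neg]
    exact congrArg _ (neg_one_smul F (a * dd F N x))
  dd := dd_dd h3 N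
  dg0 := sp_le fun p l hl => sp_mem p (by rw [hl]; simp)
  dgm := fun i j _ ha _ hb => sp_mul (fun _ _ h1 h2 => by rw [h1, h2]) ha hb
  dgd := fun _ ha => dd_mem N (fun _ h => by rw [h]) ha
  gen := sp_le fun p l hl => Submodule.subset_span ⟨sp_mem p hl, by
    by_cases h : l = []
    · exact Or.inl (sp_mem p (by simp [h]))
    · exact Or.inr (by rw [Algebra.TensorProduct.tmul_mul_tmul, wd_sq h, tmul_zero])⟩
  three := om_three h3

theorem DD_dec (h3 : (3 : F) = 0) (N : ℕ) (y : Om F) :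
    ∃ a ∈ (DD h3 N).Ev, ∃ u ∈ (DD h3 N).Od, y = a + u := by
  have : y ∈ Sp F Even ⊔ Sp F Odd := sp_le (fun p l _ => by
    rcases Nat.even_or_odd l.length with h | h
    · exact Submodule.mem_sup_left (sp_mem p h)
    · exact Submodule.mem_sup_right (sp_mem p h)) (sp_top y)
  obtain ⟨a, ha, u, hu, e⟩ := Submodule.mem_sup.1 this
  exact ⟨a, ha, u, hu, e.symm⟩

noncomputable def mu : ℕ → (ℕ →₀ ℕ)
  | 0 => 0
  | k + 1 => Finsupp.single (2 * k) 2 + Finsupp.single (2 * k + 1) 2 + mu k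

theorem mu_apply (k i : ℕ) : mu k i = if i < 2 * k then 2 else 0 := by
  induction k with
  | zero => simp [mu]
  | succ k ih =>
    simp only [mu, Finsupp.add_apply, ih, Finsupp.single_apply]
    split_ifs <;> omega

noncomputable def Res (F : Type) [Field F] (m : ℕ) : Om F →ₗ[F] F :=
  TensorProduct.lift ((LinearMap.mul F F).compl₁₂ (lcoeff F (mu m)) (tau F (top m)))

theorem Res_tmul (m : ℕ) (p : PP F) (g : Gr F) :
    Res F m (p ⊗ₜ[F] g) = coeff (mu m) p * tau F (top m) g := by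
  simp [Res]

theorem Res_dd (h3 : (3 : F) = 0) (m : ℕ) (x : Om F) : Res F m (dd F (2 * m) x) = 0 := by
  induction x using TensorProduct.induction_on with
  | zero => simp
  | add x y hx hy => simp [hx, hy]
  | tmul p g =>
    rw [dd_tmul, map_sum]
    refine Finset.sum_eq_zero fun i hi => ?_
    rw [Res_tmul, coeff_pderiv, mu_apply, if_pos (Finset.mem_range.1 hi)]
    have : ((2 : ℕ) : F) + 1 = 0 := by rw [← h3]; norm_num
    rw [this]; simp

theorem Res_Z (h3 : (3 : F) = 0) {m j : ℕ} (hj : j ≠ 2 * m) {ω : Om F}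
    (h : (DD h3 (2 * m)).Z j ω) : Res F m ω = 0 := by
  obtain ⟨-, η, hη, x, rfl⟩ := h
  have h1 : η ∈ LinearMap.ker (Res F m) := sp_le (fun p l hl => by
    rw [LinearMap.mem_ker, Res_tmul, tau_zero _ _ fun hp => hj ?_, mul_zero]
    rw [← hl, hp.length_eq, top_length]) hη
  rw [map_add, LinearMap.mem_ker.1 h1, zero_add]
  exact Res_dd h3 m x

noncomputable def xx (F : Type) [Field F] (N i : ℕ) : Om F :=
  (X i : PP F) ⊗ₜ[F] (1 : Gr F) + dd F N ((X i : PP F) ⊗ₜ[F] (1 : Gr F))

theorem X_ev (h3 : (3 : F) = 0) (N i : ℕ) : (X i : PP F) ⊗ₜ[F] (1 : Gr F) ∈ (DD h3 N).Ev :=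
  sp_mem (l := []) _ (by simp)

theorem xx_mem (h3 : (3 : F) = 0) (N i : ℕ) : xx F N i ∈ (DD h3 N).R0 :=
  ⟨_, X_ev h3 N i, rfl⟩

theorem kap_X (h3 : (3 : F) = 0) {N i : ℕ} (hi : i < N) :
    (DD h3 N).kap ((X i : PP F) ⊗ₜ[F] (1 : Gr F)) =
      (monomial (Finsupp.single i 2) 1 : PP F) ⊗ₜ[F] ee F i := by
  have : dd F N ((X i : PP F) ⊗ₜ[F] (1 : Gr F)) = (1 : PP F) ⊗ₜ[F] ee F i := by
    rw [dd_tmul, Finset.sum_eq_single i]
    · simp
    · intro j _ hj
      rw [pderiv_X_of_ne hj.symm, zero_tmul]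
    · intro h; exact absurd (Finset.mem_range.2 hi) h
  change _ * _ * dd F N _ = _
  rw [this]
  simp only [Algebra.TensorProduct.tmul_mul_tmul, mul_one, one_mul]
  rw [← X_pow_eq_monomial, sq]

theorem ww_xx (h3 : (3 : F) = 0) (m : ℕ) : ∀ k ≤ m, ww (xx F (2 * m)) k =
    (2 : F) ^ k • ((monomial (mu k) 1 : PP F) ⊗ₜ[F] wd F (top k)) := by
  intro k
  induction k with
  | zero => intro _; simp [ww, mu, top, wd_nil, Algebra.TensorProduct.one_def]
  | succ k ih =>
    intro hk
    have h := (DD h3 (2 * m)).block (X_ev h3 _ (2 * k)) (X_ev h3 _ (2 * k + 1))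
    rw [kap_X h3 (by omega), kap_X h3 (by omega)] at h
    rw [ww, ih (by omega)]
    refine (congrArg (· * _) h).trans ?_
    simp only [add_mul, mul_smul_comm, Algebra.TensorProduct.tmul_mul_tmul, monomial_mul, mu, top,
      wd_cons, mul_assoc, mul_one, pow_succ, add_assoc]
    module

theorem Res_ww (h3 : (3 : F) = 0) (m : ℕ) : Res F m (ww (xx F (2 * m)) m) ≠ 0 := by
  rw [ww_xx h3 m m le_rfl, map_smul, Res_tmul, tau_self (top_nodup m), coeff_monomial, if_pos rfl]
  have : (2 : F) ≠ 0 := fun h => one_ne_zero (α := F) (by linear_combination h3 - h)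
  simp [this]

end Pool.Agent.H.MP_63ef02_al
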