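import Pool.Agent.H.MP_63ef02_al.D

set_option linter.unusedSimpArgs false

namespace Pool.Agent.H.MP_63ef02_al

open TensorProduct MvPolynomial

variable {F : Type} [Field F]

def X3 (F : Type) [Field F] : Matrix (Fin 3) (Fin 3) F := !![0, 1, 0; 0, 0, 2; 0, 0, 0]
def Y3 (F : Type) [Field F] : Matrix (Fin 3) (Fin 3) F := !![0, 0, 0; 1, 0, 0; 0, 1, 0]

theorem XY3 (h3 : (3 : F) = 0) : X3 F * Y3 F - Y3 F * X3 F = 1 := by
  ext i j
  fin_cases i <;> fin_cases j <;> simp [X3, Y3, Matrix.mul_apply, Fin.sum_univ_three]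
  · norm_num
  · linear_combination -h3

abbrev CC (F : Type) [Field F] := MvPolynomial ℕ (PP F)
abbrev BB (F : Type) [Field F] := Matrix (Fin 3) (Fin 3) (CC F)
abbrev AA (F : Type) [Field F] := PP F ⊗[F] FreeAlgebra F ℕ

noncomputable def jj (F : Type) [Field F] : Matrix (Fin 3) (Fin 3) F →ₐ[F] BB F :=
  AlgHom.mapMatrix (Algebra.ofId F (CC F))

noncomputable def gg (F : Type) [Field F] (ε : Finset ℕ) : FreeAlgebra F ℕ →ₐ[F] BB F :=
  FreeAlgebra.lift F fun i => (X i : CC F) • jj F (zz (X3 F) (Y3 F) ε i)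

theorem gg_word (ε : Finset ℕ) (l : List ℕ) : gg F ε (l.map (FreeAlgebra.ι F)).prod =
    (monomial (Multiset.toFinsupp (l : Multiset ℕ)) 1 : CC F) • jj F (zw (X3 F) (Y3 F) ε l) := by
  induction l with
  | nil => simp [zw]
  | cons i l ih =>
    rw [List.map_cons, List.prod_cons, map_mul, ih, zw_cons, map_mul, gg, FreeAlgebra.lift_ι_apply,
      smul_mul_smul_comm, ← Multiset.cons_coe, ← Multiset.singleton_add, Multiset.toFinsupp_add,
      Multiset.toFinsupp_singleton, X, monomial_mul, one_mul]

noncomputable def al (F : Type) [Field F] (ε : Finset ℕ) : AA F →ₐ[F] BB F :=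
  Algebra.TensorProduct.lift (IsScalarTower.toAlgHom F (PP F) (BB F)) (gg F ε)
    (fun p _ => Algebra.commute_algebraMap_left p _)

noncomputable def be (F : Type) [Field F] : AA F →ₐ[F] Om F :=
  Algebra.TensorProduct.map (AlgHom.id F (PP F)) (toGr F)

theorem be_surj : Function.Surjective (be F) :=
  Algebra.TensorProduct.map_surjective _ _ Function.surjective_id toGr_surj

noncomputable def th (F : Type) [Field F] (m : ℕ) : BB F →ₗ[F] F where
  toFun M := coeff (mu m) (coeff (Multiset.toFinsupp (top m : Multiset ℕ)) (M 0 0))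
  map_add' := fun M N => by simp
  map_smul' := fun c M => by simp

theorem Res_be (h3 : (3 : F) = 0) (m : ℕ) (a : AA F) : Res F m (be F a) =
    th F m (∑ ε ∈ (Finset.range m).powerset, (-1 : F) ^ ε.card • al F ε a) := by
  induction a using TensorProduct.induction_on with
  | zero => simp
  | add x y hx hy => simp only [map_add, hx, hy, smul_add, Finset.sum_add_distrib]
  | tmul p a =>
    induction span_words a using Submodule.span_induction with
    | zero => simp
    | add y z _ _ h1 h2 => simp only [tmul_add, map_add, h1, h2, smul_add, Finset.sum_add_distrib]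
    | smul c y _ h1 =>
      simp only [tmul_smul, map_smul, h1, smul_comm _ c, ← Finset.smul_sum]
    | mem x hx =>
      obtain ⟨l, rfl⟩ := hx
      have e1 : ∀ ε, al F ε (p ⊗ₜ[F] (l.map (FreeAlgebra.ι F)).prod) =
          (monomial (Multiset.toFinsupp (l : Multiset ℕ)) p : CC F) •
            jj F (zw (X3 F) (Y3 F) ε l) := by
        intro ε
        refine (Algebra.TensorProduct.lift_tmul _ _ _ _ _).trans ?_
        rw [gg_word, IsScalarTower.toAlgHom_apply,
          ← Algebra.smul_def, ← smul_assoc, smul_monomial, smul_eq_mul, mul_one]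
      have e2 : ∑ ε ∈ (Finset.range m).powerset, (-1 : F) ^ ε.card •
          al F ε (p ⊗ₜ[F] (l.map (FreeAlgebra.ι F)).prod) =
          (monomial (Multiset.toFinsupp (l : Multiset ℕ)) p : CC F) •
            jj F (SS F (X3 F) (Y3 F) m l) := by
        rw [SS, map_sum, Finset.smul_sum]
        refine Finset.sum_congr rfl fun ε _ => ?_
        rw [e1, map_smul, smul_comm]
      have e3 : ∀ (M : Matrix (Fin 3) (Fin 3) F) (q : CC F), (q • jj F M) 0 0 = M 0 0 • q := by
        intro M q
        rw [Algebra.smul_def (M 0 0), mul_comm]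
        rfl
      beta_reduce
      rw [e2, be, Algebra.TensorProduct.map_tmul, toGr_word, Res_tmul]
      change _ = coeff _ (coeff _ ((_ • jj F _) 0 0))
      rw [e3, coeff_smul, coeff_smul, coeff_monomial]
      by_cases hl : l.Perm (top m)
      · rw [if_pos (by rw [Multiset.coe_eq_coe.2 hl]), SS_eq (XY3 h3) h3 m l hl]
        simp [mul_comm]
      · rw [if_neg (fun h => hl (Multiset.coe_eq_coe.1 (Multiset.toFinsupp.injective h))),
          tau_zero _ _ hl]
        simp

theorem Res_id [Infinite F] (h3 : (3 : F) = 0) (m : ℕ) {f : FreeAlgebra F ℕ} (hf : IsId F 21 f)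
    (φ : ℕ → Matrix (Fin 7) (Fin 7) (Om F)) (i j : Fin 7) :
    Res F m (FreeAlgebra.lift F φ f i j) = 0 := by
  choose φ' hφ using fun n i j => be_surj (φ n i j)
  have h1 := lift_map (AlgHom.mapMatrix (m := Fin 7) (be F)) (fun n => Matrix.of (φ' n)) f
  have h2 : (fun n => AlgHom.mapMatrix (m := Fin 7) (be F) (Matrix.of (φ' n))) = φ := by
    funext n; ext i j : 2; exact hφ n i j
  rw [h2] at h1
  rw [← h1]
  change Res F m (be F _) = 0
  rw [Res_be h3, Finset.sum_eq_zero, map_zero]
  intro ε _
  have h4 := lift_map (AlgHom.mapMatrix (m := Fin 7) (al F ε)) (fun n => Matrix.of (φ' n)) f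
  rw [id_blk hf] at h4
  have h5 : al F ε (FreeAlgebra.lift F (fun n => Matrix.of (φ' n)) f i j) = 0 :=
    congrFun (congrFun h4 i) j
  rw [h5, smul_zero]

end Pool.Agent.H.MP_63ef02_al
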