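import Pool.Agent.H.MP_63ef02_al.A
import Pool.Agent.H.MP_63ef02_al.C

set_option linter.unusedSimpArgs false

namespace Pool.Agent.H.MP_63ef02_al

variable {F Ω : Type} [Field F] [Ring Ω] [Algebra F Ω]

def Up (k : ℕ) (M : Matrix (Fin 7) (Fin 7) Ω) : Prop := ∀ i j : Fin 7, (j : ℕ) < i + k → M i j = 0

theorem up_mul {k l : ℕ} {M N : Matrix (Fin 7) (Fin 7) Ω} (hM : Up k M) (hN : Up l N) :
    Up (k + l) (M * N) := by
  intro i j h
  rw [Matrix.mul_apply]
  refine Finset.sum_eq_zero fun r _ => ?_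
  by_cases hr : (r : ℕ) < i + k
  · rw [hM i r hr, zero_mul]
  · rw [hN r j (by omega), mul_zero]

theorem up_ent {k l : ℕ} {M N : Matrix (Fin 7) (Fin 7) Ω} (hM : Up k M) (hN : Up l N)
    {i r : Fin 7} (j : Fin 7) (hj : (j : ℕ) = i + k) (hr : (r : ℕ) = j + l) :
    (M * N) i r = M i j * N j r := by
  rw [Matrix.mul_apply]
  refine Finset.sum_eq_single j (fun s _ hs => ?_) (by simp)
  have : (s : ℕ) ≠ j := fun e => hs (Fin.ext e)
  by_cases h : (s : ℕ) < i + k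
  · rw [hM i s h, zero_mul]
  · rw [hN s r (by omega), mul_zero]

theorem sup_ent {M N : Matrix (Fin 7) (Fin 7) Ω} (hM : Up 0 M) (hN : Up 0 N)
    {i j : Fin 7} (hj : (j : ℕ) = i + 1) : (M * N) i j = M i i * N i j + M i j * N j j := by
  rw [Matrix.mul_apply]
  refine Finset.sum_eq_add i j (fun e => by rw [e] at hj; omega) (fun s _ hs => ?_)
    (by simp) (by simp)
  have h1 : (s : ℕ) ≠ i := fun e => hs.1 (Fin.ext e)
  have h2 : (s : ℕ) ≠ j := fun e => hs.2 (Fin.ext e)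
  by_cases h : (s : ℕ) < i + 0
  · rw [hM i s h, zero_mul]
  · rw [hN s j (by omega), mul_zero]

structure IsT (R : Subalgebra F Ω) (M : Matrix (Fin 7) (Fin 7) Ω) : Prop where
  up : Up 0 M
  d1 : ∀ i, M i i ∈ R
  s1 : ∀ i j : Fin 7, (j : ℕ) = i + 1 → M i j ∈ R
  d2 : ∀ i i' : Fin 7, (i' : ℕ) = i + 2 → M i' i' = M i i
  s2 : ∀ i j i' j' : Fin 7, (j : ℕ) = i + 1 → (i' : ℕ) = i + 2 → (j' : ℕ) = j + 2 →
    M i' j' = M i j
  c : M 0 0 ∈ (⊥ : Subalgebra F Ω)

def TT (R : Subalgebra F Ω) : Subalgebra F (Matrix (Fin 7) (Fin 7) Ω) where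
  carrier := {M | IsT R M}
  mul_mem' := fun {M N} hM hN =>
    { up := up_mul hM.up hN.up
      d1 := fun i => by
        rw [up_ent hM.up hN.up i rfl rfl]; exact mul_mem (hM.d1 i) (hN.d1 i)
      s1 := fun i j h => by
        rw [sup_ent hM.up hN.up h]
        exact add_mem (mul_mem (hM.d1 i) (hN.s1 i j h)) (mul_mem (hM.s1 i j h) (hN.d1 j))
      d2 := fun i i' h => by
        rw [up_ent hM.up hN.up i rfl rfl, up_ent hM.up hN.up i' rfl rfl, hM.d2 i i' h,
          hN.d2 i i' h]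
      s2 := fun i j i' j' h1 h2 h3 => by
        rw [sup_ent hM.up hN.up h1, sup_ent hM.up hN.up (by omega), hM.d2 i i' h2, hN.d2 j j' h3,
          hM.s2 i j i' j' h1 h2 h3, hN.s2 i j i' j' h1 h2 h3]
      c := by rw [up_ent hM.up hN.up 0 rfl rfl]; exact mul_mem hM.c hN.c }
  add_mem' := fun {M N} hM hN =>
    { up := fun i j h => by rw [Matrix.add_apply, hM.up i j h, hN.up i j h, add_zero]
      d1 := fun i => add_mem (hM.d1 i) (hN.d1 i)
      s1 := fun i j h => add_mem (hM.s1 i j h) (hN.s1 i j h)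
      d2 := fun i i' h => by simp only [Matrix.add_apply, hM.d2 i i' h, hN.d2 i i' h]
      s2 := fun i j i' j' h1 h2 h3 => by
        simp only [Matrix.add_apply, hM.s2 i j i' j' h1 h2 h3, hN.s2 i j i' j' h1 h2 h3]
      c := add_mem hM.c hN.c }
  algebraMap_mem' := fun r =>
    { up := fun i j h => by
        rw [Matrix.algebraMap_matrix_apply, if_neg (fun e => by rw [e] at h; omega)]
      d1 := fun i => by simp [Matrix.algebraMap_matrix_apply]
      s1 := fun i j h => by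
        rw [Matrix.algebraMap_matrix_apply, if_neg (fun e => by rw [e] at h; omega)]
        exact zero_mem _
      d2 := fun i i' h => by simp [Matrix.algebraMap_matrix_apply]
      s2 := fun i j i' j' h1 h2 h3 => by
        rw [Matrix.algebraMap_matrix_apply, if_neg (fun e => by rw [e] at h2; omega),
          Matrix.algebraMap_matrix_apply, if_neg (fun e => by rw [e] at h1; omega)]
      c := by simp [Matrix.algebraMap_matrix_apply] }

def dl (R : Subalgebra F Ω) (i : Fin 7) : TT R →+* Ω where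
  toFun M := M.1 i i
  map_one' := by simp
  map_mul' := fun M N => up_ent M.2.up N.2.up i rfl rfl
  map_zero' := rfl
  map_add' := fun _ _ => rfl

def hh {A : Type} [Ring A] (x : ℕ → A) : A :=
  (x 0 * x 1 - x 1 * x 0) * x 2 - x 2 * (x 0 * x 1 - x 1 * x 0)

def gk {A : Type} [Ring A] (x : ℕ → A) (k : ℕ) : A :=
  hh x * ww (fun i => x (i + 3)) k * hh x * hh x * hh x * hh x * hh x

theorem gk_map {A B : Type} [Ring A] [Ring B] (f : A →+* B) (x : ℕ → A) (k : ℕ) :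
    f (gk x k) = gk (fun i => f (x i)) k := by
  simp [gk, hh, ww_map]

theorem lift_gk {A : Type} [Ring A] [Algebra F A] (φ : ℕ → A) (k : ℕ) :
    FreeAlgebra.lift F φ (gk (FreeAlgebra.ι F) k) = gk φ k := by
  have := gk_map (FreeAlgebra.lift F φ : FreeAlgebra F ℕ →+* A) (FreeAlgebra.ι F) k
  simpa using this

theorem gk_corner {R : Subalgebra F Ω}
    (hR : ∀ x ∈ R, ∀ y ∈ R, ∀ z, (x * y - y * x) * z - z * (x * y - y * x) = 0)
    (φ : ℕ → TT R) (k : ℕ) : Up 6 (gk φ k).1 ∧ (gk φ k).1 0 6 =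
      (hh φ).1 0 1 * ww (fun i => (φ (i + 3)).1 1 1) k * (hh φ).1 1 2 * (hh φ).1 0 1 *
        (hh φ).1 1 2 * (hh φ).1 0 1 * (hh φ).1 1 2 := by
  have hH : Up 1 (hh φ).1 := fun i j h => by
    by_cases e : i = j
    · subst e
      change dl R i (hh φ) = 0
      simp only [hh, map_sub, map_mul]
      exact hR _ ((φ 0).2.d1 i) _ ((φ 1).2.d1 i) _
    · exact (hh φ).2.up i j (by have : (i : ℕ) ≠ j := fun h => e (Fin.ext h); omega)
  have hW := (ww (fun i => φ (i + 3)) k).2.up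
  have h1 := up_mul hH hW
  have h2 := up_mul h1 hH
  have h3 := up_mul h2 hH
  have h4 := up_mul h3 hH
  have h5 := up_mul h4 hH
  refine ⟨up_mul h5 hH, ?_⟩
  have e : (ww (fun i => φ (i + 3)) k).1 1 1 = ww (fun i => (φ (i + 3)).1 1 1) k :=
    ww_map (dl R 1) _ k
  have s := (hh φ).2.s2
  simp only [gk, MulMemClass.coe_mul]
  rw [up_ent h5 hH 5 rfl rfl, up_ent h4 hH 4 rfl rfl, up_ent h3 hH 3 rfl rfl,
    up_ent h2 hH 2 rfl rfl, up_ent h1 hH 1 rfl rfl, up_ent hH hW 1 rfl rfl, e,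
    s 3 4 5 6 rfl rfl rfl, s 2 3 4 5 rfl rfl rfl, s 1 2 3 4 rfl rfl rfl, s 0 1 2 3 rfl rfl rfl]

theorem neg_aux {A : Type} [Ring A] (u f v : A) : u * -f * v = -u * f * v := by simp

def Gam (R : Subalgebra F Ω) (ρ : Ω →ₗ[F] F) : TwoSidedIdeal (FreeAlgebra F ℕ) :=
  TwoSidedIdeal.mk' {f | ∀ (φ : ℕ → TT R) (u v : TT R),
      ρ ((u * FreeAlgebra.lift F φ f * v).1 0 6) = 0}
    (fun φ u v => by simp)
    (fun {f g} hf hg φ u v => by
      rw [map_add, mul_add, add_mul, AddMemClass.coe_add, Matrix.add_apply, map_add, hf, hg,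
        add_zero])
    (fun {f} hf φ u v => by
      have e : u * FreeAlgebra.lift F φ (-f) * v = -u * FreeAlgebra.lift F φ f * v := by
        rw [map_neg]; exact neg_aux u (FreeAlgebra.lift F φ f) v
      rw [e]; exact hf φ (-u) v)
    (fun {f g} hg φ u v => by
      have := hg φ (u * FreeAlgebra.lift F φ f) v
      rwa [map_mul, ← mul_assoc])
    (fun {f g} hf φ u v => by
      have := hf φ u (FreeAlgebra.lift F φ g * v)
      rwa [map_mul, ← mul_assoc, mul_assoc _ _ v])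

theorem mem_Gam {R : Subalgebra F Ω} {ρ : Ω →ₗ[F] F} {f : FreeAlgebra F ℕ} :
    f ∈ Gam R ρ ↔ ∀ (φ : ℕ → TT R) (u v : TT R),
      ρ ((u * FreeAlgebra.lift F φ f * v).1 0 6) = 0 := TwoSidedIdeal.mem_mk' ..

theorem Gam_endo {R : Subalgebra F Ω} {ρ : Ω →ₗ[F] F}
    (ψ : FreeAlgebra F ℕ →ₐ[F] FreeAlgebra F ℕ) {f : FreeAlgebra F ℕ} (hf : f ∈ Gam R ρ) :
    ψ f ∈ Gam R ρ := mem_Gam.2 fun φ u v => by
  rw [lift_endo]; exact mem_Gam.1 hf _ u v

theorem Gam_id {R : Subalgebra F Ω} {ρ : Ω →ₗ[F] F} {n : ℕ}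
    (h : ∀ f, IsId F n f → ∀ φ : ℕ → Matrix (Fin 7) (Fin 7) Ω,
      ρ (FreeAlgebra.lift F φ f 0 6) = 0) {f : FreeAlgebra F ℕ} (hf : IsId F n f) :
    f ∈ Gam R ρ := mem_Gam.2 fun φ u v => by
  let ψ : FreeAlgebra F ℕ →ₐ[F] FreeAlgebra F ℕ :=
    FreeAlgebra.lift F fun i => FreeAlgebra.ι F (i + 2)
  have h1 : IsId F n (FreeAlgebra.ι F 0 * ψ f * FreeAlgebra.ι F 1) := fun χ => by
    rw [map_mul, map_mul, id_endo hf ψ χ, mul_zero, zero_mul]
  let φ' : ℕ → Matrix (Fin 7) (Fin 7) Ω := fun i =>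
    match i with | 0 => u.1 | 1 => v.1 | i + 2 => (φ i).1
  have h2 := h _ h1 φ'
  rw [map_mul, map_mul, lift_endo] at h2
  have h3 : (FreeAlgebra.lift F φ f).1 = FreeAlgebra.lift F (fun i => (φ i).1) f :=
    lift_map (TT R).val φ f
  simp only [ψ, FreeAlgebra.lift_ι_apply, φ'] at h2
  simp only [MulMemClass.coe_mul]
  rw [h3]
  exact h2

theorem gk_mem {R : Subalgebra F Ω} {ρ : Ω →ₗ[F] F} {k : ℕ}
    (hR : ∀ x ∈ R, ∀ y ∈ R, ∀ z, (x * y - y * x) * z - z * (x * y - y * x) = 0)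
    (h : ∀ x : ℕ → Ω, (∀ i, x i ∈ R) → ∀ A ∈ R, ∀ C ∈ R,
      ρ (A * ww x k * C * A * C * A * C) = 0) : gk (FreeAlgebra.ι F) k ∈ Gam R ρ :=
  mem_Gam.2 fun φ u v => by
    obtain ⟨h1, h2⟩ := gk_corner hR φ k
    obtain ⟨a, ha⟩ := Algebra.mem_bot.1 u.2.c
    obtain ⟨b, hb⟩ := Algebra.mem_bot.1 v.2.c
    have e : v.1 6 6 = v.1 0 0 := by rw [v.2.d2 4 6 rfl, v.2.d2 2 4 rfl, v.2.d2 0 2 rfl]
    rw [lift_gk]
    simp only [MulMemClass.coe_mul]
    rw [up_ent (up_mul u.2.up h1) v.2.up 6 rfl rfl, up_ent u.2.up h1 0 rfl rfl, e, ← ha, ← hb,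
      ← Algebra.commutes, ← Algebra.smul_def, ← Algebra.smul_def, map_smul, map_smul, h2,
      h _ (fun i => (φ (i + 3)).2.d1 1) _ ((hh φ).2.s1 0 1 rfl) _ ((hh φ).2.s1 1 2 rfl)]
    simp

def dg (R : Subalgebra F Ω) {t : Ω} (ht : t ∈ R) : TT R :=
  ⟨Matrix.diagonal fun i : Fin 7 => if (i : ℕ) % 2 = 0 then 0 else t,
    { up := fun i j h => Matrix.diagonal_apply_ne _ (fun e => by rw [e] at h; omega)
      d1 := fun i => by
        rw [Matrix.diagonal_apply_eq]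
        split_ifs
        exacts [zero_mem _, ht]
      s1 := fun i j h => by
        rw [Matrix.diagonal_apply_ne _ (fun e => by rw [e] at h; omega)]; exact zero_mem _
      d2 := fun i i' h => by simp [h]
      s2 := fun i j i' j' h1 h2 h3 => by
        rw [Matrix.diagonal_apply_ne _ (fun e => by rw [e] at h2; omega),
          Matrix.diagonal_apply_ne _ (fun e => by rw [e] at h1; omega)]
      c := by simp }⟩

def nn (R : Subalgebra F Ω) : TT R :=
  ⟨Matrix.of fun i j : Fin 7 => if (j : ℕ) = i + 1 then 1 else 0,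
    { up := fun i j h => if_neg (by omega)
      d1 := fun i => by simp
      s1 := fun i j h => by simp [h]
      d2 := fun i i' h => by simp
      s2 := fun i j i' j' h1 h2 h3 => by simp [h1, h2, h3]
      c := by simp }⟩

theorem gk_not_mem {R : Subalgebra F Ω} {ρ : Ω →ₗ[F] F} {k : ℕ}
    (hR : ∀ x ∈ R, ∀ y ∈ R, ∀ z, (x * y - y * x) * z - z * (x * y - y * x) = 0)
    {x : ℕ → Ω} (hx : ∀ i, x i ∈ R) (h : ρ (ww x k) ≠ 0) : gk (FreeAlgebra.ι F) k ∉ Gam R ρ := by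
  intro hg
  let φ : ℕ → TT R := fun i =>
    match i with | 0 => dg R R.one_mem | 1 => nn R | 2 => dg R R.one_mem | i + 3 => dg R (hx i)
  have h1 := mem_Gam.1 hg φ 1 1
  rw [lift_gk, one_mul, mul_one, (gk_corner hR φ k).2] at h1
  have e1 : (hh φ).1 0 1 = -1 := by
    simp [hh, φ, dg, nn, Matrix.diagonal_mul, Matrix.mul_diagonal]
  have e2 : (hh φ).1 1 2 = -1 := by
    simp [hh, φ, dg, nn, Matrix.diagonal_mul, Matrix.mul_diagonal]
  have e3 : (fun i => (φ (i + 3)).1 1 1) = x := by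
    funext i; simp [φ, dg]
  rw [e1, e2, e3] at h1
  exact h (by simpa using h1)

end Pool.Agent.H.MP_63ef02_al
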