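import Pool.Agent.H.MP_63ef02_al.E
import Pool.Agent.H.MP_63ef02_al.G

namespace Pool.Agent.H.MP_63ef02_al

variable {F : Type} [Field F]

theorem id_mono {a n : ℕ} (h : a ≤ n) {f : FreeAlgebra F ℕ} (hf : IsId F n f) : IsId F a f := by
  obtain ⟨b, rfl⟩ := Nat.exists_eq_add_of_le h
  intro φ
  have key : ∀ g : FreeAlgebra F ℕ,
      FreeAlgebra.lift F (fun i => Matrix.fromBlocks (φ i) 0 0 (0 : Matrix (Fin b) (Fin b) F)) g =
        Matrix.fromBlocks (FreeAlgebra.lift F φ g) 0 0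
          (FreeAlgebra.lift F (fun _ => (0 : Matrix (Fin b) (Fin b) F)) g) := by
    intro g
    induction g using FreeAlgebra.induction with
    | grade0 r =>
      simp only [Algebra.algebraMap_eq_smul_one, map_smul, map_one]
      rw [← Matrix.fromBlocks_one, Matrix.fromBlocks_smul]
      simp
    | grade1 x => simp
    | add x y hx hy => simp [hx, hy, Matrix.fromBlocks_add]
    | mul x y hx hy => simp [hx, hy, Matrix.fromBlocks_multiply]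
  let E := Matrix.reindexAlgEquiv F F (finSumFinEquiv (m := a) (n := b))
  have h1 := lift_map E.toAlgHom
    (fun i => Matrix.fromBlocks (φ i) 0 0 (0 : Matrix (Fin b) (Fin b) F)) f
  rw [hf, key] at h1
  have h2 := E.injective (h1.trans (map_zero E).symm)
  rw [← Matrix.fromBlocks_zero, Matrix.fromBlocks_inj] at h2
  exact h2.1

noncomputable def GG (h3 : (3 : F) = 0) (m : ℕ) : TwoSidedIdeal (FreeAlgebra F ℕ) :=
  Gam (DD h3 (2 * m)).R0 (Res F m)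

theorem GG_mem (h3 : (3 : F) = 0) {k m : ℕ} (h : k ≠ m) : gk (FreeAlgebra.ι F) k ∈ GG h3 m :=
  gk_mem (fun _ hx _ hy _ => (DD h3 (2 * m)).comm3 hx hy) fun _ hx _ hA _ hC =>
    Res_Z h3 (by omega) ((DD h3 (2 * m)).Z_ww (DD_dec h3 _) hx hA hC k)

theorem GG_not_mem (h3 : (3 : F) = 0) (m : ℕ) : gk (FreeAlgebra.ι F) m ∉ GG h3 m :=
  gk_not_mem (fun _ hx _ hy _ => (DD h3 (2 * m)).comm3 hx hy) (xx_mem h3 _) (Res_ww h3 m)

theorem GG_id [Infinite F] (h3 : (3 : F) = 0) (m : ℕ) {f : FreeAlgebra F ℕ} (hf : IsId F 21 f) :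
    f ∈ GG h3 m :=
  Gam_id (fun _ hf φ => Res_id h3 m hf φ 0 6) hf

theorem const_zero {J : TwoSidedIdeal (FreeAlgebra F ℕ)}
    (hJ : ∀ ψ : FreeAlgebra F ℕ →ₐ[F] FreeAlgebra F ℕ, ∀ g ∈ J, ψ g ∈ J)
    {g : FreeAlgebra F ℕ} (hg : g ∉ J) {f : FreeAlgebra F ℕ} (hf : f ∈ J) :
    FreeAlgebra.algebraMapInv f = 0 := by
  by_contra hc
  have h1 := hJ ((Algebra.ofId F _).comp FreeAlgebra.algebraMapInv) f hf
  have h2 := J.mul_mem_left ((FreeAlgebra.algebraMapInv f)⁻¹ • g) _ h1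
  rw [AlgHom.comp_apply, Algebra.ofId_apply, Algebra.algebraMap_eq_smul_one, smul_mul_smul_comm,
    inv_mul_cancel₀ hc, one_smul, mul_one] at h2
  exact hg h2

noncomputable def II (h3 : (3 : F) = 0) : TwoSidedIdeal (FreeAlgebra F ℕ) :=
  TwoSidedIdeal.mk' {f | ∀ᶠ m in Filter.atTop, f ∈ GG h3 m}
    (Filter.Eventually.of_forall fun m => (GG h3 m).zero_mem)
    (fun hf hg => (hf.and hg).mono fun m h => (GG h3 m).add_mem h.1 h.2)
    (fun hf => hf.mono fun m h => (GG h3 m).neg_mem h)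
    (fun hf => hf.mono fun m h => (GG h3 m).mul_mem_left _ _ h)
    (fun hf => hf.mono fun m h => (GG h3 m).mul_mem_right _ _ h)

theorem mem_II (h3 : (3 : F) = 0) {f : FreeAlgebra F ℕ} :
    f ∈ II h3 ↔ ∀ᶠ m in Filter.atTop, f ∈ GG h3 m := TwoSidedIdeal.mem_mk' ..

theorem core [Infinite F] (h3 : (3 : F) = 0) {n : ℕ} (hn : 21 ≤ n) :
    ∃ I : TwoSidedIdeal (FreeAlgebra F ℕ),
      (∀ ψ : FreeAlgebra F ℕ →ₐ[F] FreeAlgebra F ℕ, ∀ g ∈ I, ψ g ∈ I) ∧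
      (∀ f, IsId F n f → f ∈ I) ∧ (∀ f ∈ I, FreeAlgebra.algebraMapInv f = 0) ∧
      ∀ S : Finset (FreeAlgebra F ℕ), (∀ g ∈ S, g ∈ I) →
        ∃ J : TwoSidedIdeal (FreeAlgebra F ℕ), (∀ g ∈ S, g ∈ J) ∧
          (∀ ψ : FreeAlgebra F ℕ →ₐ[F] FreeAlgebra F ℕ, ∀ g ∈ J, ψ g ∈ J) ∧
          (∀ f ∈ J, FreeAlgebra.algebraMapInv f = 0) ∧ ∃ f ∈ I, f ∉ J := by
  have hT : ∀ m, ∀ ψ : FreeAlgebra F ℕ →ₐ[F] FreeAlgebra F ℕ, ∀ g ∈ GG h3 m, ψ g ∈ GG h3 m :=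
    fun m ψ g hg => Gam_endo ψ hg
  refine ⟨II h3, fun ψ g hg => (mem_II h3).2 (((mem_II h3).1 hg).mono fun m h => hT m ψ g h),
    fun f hf => (mem_II h3).2 (Filter.Eventually.of_forall fun m => GG_id h3 m (id_mono hn hf)),
    fun f hf => ?_, fun S hS => ?_⟩
  · obtain ⟨m, hm⟩ := ((mem_II h3).1 hf).exists
    exact const_zero (hT m) (GG_not_mem h3 m) hm
  · obtain ⟨m, hm⟩ := ((Filter.eventually_all_finset S).2 fun g hg => (mem_II h3).1 (hS g hg)).exists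
    refine ⟨GG h3 m, hm, hT m, fun f hf => const_zero (hT m) (GG_not_mem h3 m) hf, _,
      (mem_II h3).2 ?_, GG_not_mem h3 m⟩
    exact (Filter.eventually_gt_atTop m).mono fun k hk => GG_mem h3 hk.ne

end Pool.Agent.H.MP_63ef02_al
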